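import Pool.Agent.W218.OG.Main

/-!
# Gaps between the primes of the orbits of `x ↦ 4 x + 1`

Let `S x = 4 x + 1`. For every `ε > 0` there is `M` such that for EVERY multiple `N` of `M` there is
`L` such that among any `T ≥ L` consecutive multiples `j` of `N` at least `(2/5 - ε) T` are gaps: for at
least `x ^ (1 - η)` primes `p ≤ x`, for every `η > 0` and arbitrarily large `x`, the number `S^j(p)` is
prime and `S(p), ..., S^(j-1)(p)` are all composite (the question is the case `j = 1`). For at least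
`(1/2 - ε) T` of them `S^j(p)` is prime and at most `J` of `S(p), ..., S^(j-1)(p)` are prime, where `J`
depends only on `ε`.

Proof: the coloured Maynard-Tao theorem of the starting files (`Pool.Agent.H732R3.QuarterB`) for the
values of an orbit at prescribed times, all other values being made composite by congruences, and
helper142's theorems on sets of differences (`Pool.Agent.W142.TF.s_maiF`, `s_maiG`).
-/

namespace Pool.Agent.Results.MP_3df474_nt.OrbitGaps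

open Filter

/-- `x ↦ 4 x + 1` -/
def S (x : ℕ) : ℕ := 4 * x + 1

theorem result (ε : ℝ) (hε : 0 < ε) :
    (∃ M : ℕ, 0 < M ∧ ∀ N : ℕ, 0 < N → M ∣ N → ∃ L : ℕ, ∀ T : ℕ, L ≤ T → ∀ u : ℕ,
      (2 / 5 - ε) * (T : ℝ) ≤ ({k : ℕ | u < k ∧ k ≤ u + T ∧ ∀ η : ℝ, 0 < η → ∃ᶠ x : ℝ in atTop,
        x ^ (1 - η) ≤ ({p : ℕ | (p : ℝ) ≤ x ∧ p.Prime ∧ (S^[N * k] p).Prime ∧
          ∀ l, 0 < l → l < N * k → ¬ (S^[l] p).Prime}.ncard : ℝ)}.ncard : ℝ)) ∧
    ∃ J M : ℕ, 0 < M ∧ ∀ N : ℕ, 0 < N → M ∣ N → ∃ L : ℕ, ∀ T : ℕ, L ≤ T → ∀ u : ℕ,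
      (1 / 2 - ε) * (T : ℝ) ≤ ({k : ℕ | u < k ∧ k ≤ u + T ∧ ∀ η : ℝ, 0 < η → ∃ᶠ x : ℝ in atTop,
        x ^ (1 - η) ≤ ({p : ℕ | (p : ℝ) ≤ x ∧ p.Prime ∧ (S^[N * k] p).Prime ∧
          {l : ℕ | 0 < l ∧ l < N * k ∧ (S^[l] p).Prime}.ncard ≤ J}.ncard : ℝ)}.ncard : ℝ) := by
  refine Pool.Agent.W218.OG.transferM 4 1 3 (by norm_num) one_ne_zero isCoprime_one_left
    (by norm_num) (fun p _ h => ?_) (fun p j => S^[j] p) (fun p j _ => ?_) ε hε
  · have h1 : p ∣ 3 := by simpa using h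
    rw [one_mul]
    exact_mod_cast h1
  · show ((S^[j] p : ℕ) : ℤ) = _
    induction j with
    | zero => rfl
    | succ j ih =>
      rw [Function.iterate_succ_apply', Function.iterate_succ_apply', ← ih]
      show ((4 * S^[j] p + 1 : ℕ) : ℤ) = ((4 : ℕ) : ℤ) * (S^[j] p : ℕ) + 1
      push_cast
      ring

end Pool.Agent.Results.MP_3df474_nt.OrbitGaps
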