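import Pool.Agent.W218.OG.OrbM

/-!
# The primes of the orbits of `x ↦ 4 x + 1` follow every finite pattern up to a bounded error

Let `S x = 4 x + 1`. For all `k` and `r` there is `C` such that for EVERY set `V` of at most `k` times
which contains `0` there is a finite set `H` of multiples of `3` which contains `0`, has at least `r`
elements within `C` of each element of `V` and no other elements, and which is the exact set of the
times of primes for many orbits: for every `R` and `η > 0` there are arbitrarily large `x` with at least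
`x ^ (1 - η)` primes `p ≤ x` such that for all `t ≤ R` the number `S^t(p)` is prime if and only if
`t ∈ H`. So there are clusters of `r` primes of bounded length in the orbits, at arbitrary prescribed
distances from each other, with only composite numbers elsewhere up to any time `R`.

Proof: the coloured Maynard-Tao theorem of the starting files (`Pool.Agent.H732R3.QuarterB`) for the
values of an orbit at prescribed times, all other values being made composite by congruences, and the
argument of `Pool.Agent.H732R3.HausB` (by the density Hales-Jewett theorem) for arbitrary translation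
invariant families of patterns.
-/

namespace Pool.Agent.Results.MP_3df474_nt.OrbitPatterns

open Filter

/-- `x ↦ 4 x + 1` -/
def S (x : ℕ) : ℕ := 4 * x + 1

theorem result (k r : ℕ) : ∃ C : ℕ, ∀ V : Finset ℕ, 0 ∈ V → V.card ≤ k →
    ∃ H : Finset ℕ, 0 ∈ H ∧ (∀ h ∈ H, 3 ∣ h) ∧
      (∀ x ∈ V, r ≤ (H.filter (fun h : ℕ => |(h : ℤ) - x| ≤ C)).card) ∧
      (∀ h ∈ H, ∃ x ∈ V, |(h : ℤ) - x| ≤ C) ∧
      ∀ (R : ℕ) (η : ℝ), 0 < η → ∃ᶠ x : ℝ in atTop,
        x ^ (1 - η) ≤ ({p : ℕ | (p : ℝ) ≤ x ∧ p.Prime ∧
          ∀ t ≤ R, ((S^[t] p).Prime ↔ t ∈ H)}.ncard : ℝ) := by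
  obtain ⟨C, hC⟩ := Pool.Agent.W218.OG.patternsM 4 1 3 (by norm_num) one_ne_zero isCoprime_one_left
    (by norm_num) (fun p _ h => by
      have h1 : p ∣ 3 := by simpa using h
      rw [one_mul]
      exact_mod_cast h1) k r
  refine ⟨C, fun V hV0 hVk => ?_⟩
  obtain ⟨H, h0, h00, h1, h2, h3⟩ := hC V hV0 hVk
  refine ⟨H, h0, h00, h1, h2, fun R η hη => ?_⟩
  refine (h3 R η hη).mono fun x hx => hx.trans (le_of_eq ?_)
  congr 2
  ext p
  have hS : ∀ t : ℕ, ((S^[t] p : ℕ) : ℤ) = (Pool.Agent.H447R3.IT.S 4 1)^[t] (p : ℤ) := by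
    intro t
    induction t with
    | zero => rfl
    | succ j ih =>
      rw [Function.iterate_succ_apply', Function.iterate_succ_apply', ← ih]
      show ((4 * S^[j] p + 1 : ℕ) : ℤ) = ((4 : ℕ) : ℤ) * (S^[j] p : ℕ) + 1
      push_cast
      ring
  have key : ∀ t : ℕ, (Pool.Agent.W218.OG.Pr ((Pool.Agent.H447R3.IT.S 4 1)^[t] (p : ℤ)) ↔
      (S^[t] p).Prime) := by
    intro t
    rw [← hS, Pool.Agent.W218.OG.pr_natO]
  simp only [Set.mem_ofPred_eq, key]
  tauto

end Pool.Agent.Results.MP_3df474_nt.OrbitPatterns
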